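import Pool.Agent.H700.AM.Poly

/-!
# Sets with addition matrix of small factorization norm

For sets with bounded representation function, the exponent of the factorization norm of the addition matrix
`x + y ∈ A` is the exponent of growth of `A`. Inside a class of sets of exponent `ρ < 1 / 2`, all functions
`g(N) ≤ N ^ κ` with `κ < 1 / 2 - ρ` force unbounded representations.
-/

set_option autoImplicit false

namespace Pool.Agent.Results.MP_491344_nt.AdditionMatrixNorm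

open Filter Pool.Agent.H700.AM Pool.Agent.H700.HD

theorem result :
    -- 1. the main inequality
    (∀ (A : Set ℕ) (K : ℕ), (∀ n, rep A n ≤ K) → ∀ (M : ℕ) (β g : ℝ), 1 ≤ β → SumNorm A (2 * M) β g →
      ((count A (3 * M) - count A M : ℕ) : ℝ) ^ 3 ≤ 8 * K * (β * g ^ 2) * (count A (4 * M) : ℝ) ^ 2) ∧
    -- 2. for a bounded representation function, the exponents of the norm and of the growth agree
    (∀ (A : Set ℕ) (K : ℕ), (∀ n, rep A n ≤ K) → ∀ ρ : ℝ, 0 ≤ ρ →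
      (Exponent A ρ ↔ ∀ ε : ℝ, 0 < ε → ∀ᶠ N : ℕ in atTop, (count A N : ℝ) ≤ (N : ℝ) ^ (ρ + ε))) ∧
    -- 3. thresholds inside the class
    (∀ (A : Set ℕ) (ρ κ : ℝ), 0 ≤ ρ → ρ + κ < 1 / 2 → Exponent A ρ →
      ∀ g : ℕ → ℝ, (∀ᶠ N : ℕ in atTop, 0 < g N ∧ g N ≤ (N : ℝ) ^ κ) →
        (∃ C : ℝ, ∃ᶠ N : ℕ in atTop, (N : ℝ) ^ (1 / 2 : ℝ) / g N ≤ C * ((A ∩ Set.Icc 1 N).ncard : ℝ)) →
          ∀ K : ℕ, ∃ n, K < rep A n) ∧
    -- 4. slowly growing norms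
    (∀ (A : Set ℕ) (K : ℕ), (∀ n, rep A n ≤ K) → ∀ G : ℕ → ℝ, Monotone G → (∀ N, 1 ≤ G N) →
      (∀ᶠ N : ℕ in atTop, ∃ β g : ℝ, 1 ≤ β ∧ 0 ≤ g ∧ β * g ^ 2 ≤ G N ∧ SumNorm A N β g) →
        ∃ C : ℝ, ∀ᶠ N : ℕ in atTop, (count A N : ℝ) ≤ C * G (N ^ 3) * Real.log N ^ 3) ∧
    -- 5. unions of trees of equality tests
    (∀ (A : Set ℕ) (N t d : ℕ) (T : Fin t → EqTree (Fin N) (Fin N)), (∀ i, (T i).depth ≤ d) →
      (∀ x y : Fin N, (x : ℕ) + y ∈ A ↔ ∃ i, (T i).run x y = true) → SumNorm A N t (t * 3 ^ d)) := by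
  refine ⟨fun A K hK M β g hβ h => main K hK M β g hβ h, ?_, ?_,
    fun A K hK G hG hG1 hA => slow K hK G hG hG1 hA, fun A N t d T hd hT => sumNorm_of_trees N t d T hd hT⟩
  · intro A K hK ρ hρ
    exact ⟨fun h ε hε => growth_of_exponent K hK ρ hρ h ε hε, exponent_of_growth ρ hρ⟩
  · rintro A ρ κ hρ hκ hE g hg ⟨C, hC⟩ K
    refine threshold ρ κ hρ hκ hE C ?_ K
    refine (hC.and_eventually (hg.and (eventually_ge_atTop 1))).mono ?_
    rintro N ⟨h1, ⟨h2, h3⟩, h4⟩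
    have hN : (0 : ℝ) < N := by exact_mod_cast h4
    refine le_trans ?_ h1
    rw [le_div_iff₀ h2]
    calc (N : ℝ) ^ (1 / 2 - κ) * g N ≤ (N : ℝ) ^ (1 / 2 - κ) * (N : ℝ) ^ κ :=
          mul_le_mul_of_nonneg_left h3 (Real.rpow_nonneg hN.le _)
      _ = (N : ℝ) ^ (1 / 2 : ℝ) := by
          rw [← Real.rpow_add hN]
          congr 1
          ring

end Pool.Agent.Results.MP_491344_nt.AdditionMatrixNorm
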