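import Pool.Agent.H33.TS.Block3

/-!
# MP_491344_nt: test sets which force sumsets of density one

`rep A n = r_A(n)` is the number of ordered pairs of elements of `A` with sum `n`,
`count A N = |A ∩ [1, N]|`, and `Covers A S` says that all large elements of `S` are sums of two
elements of `A`.

1. (local form) There are constants `c_K` such that for every `H : ℕ → ℕ`, `H ≥ 1`, there is a set `S`
   with at most `2^k H(k)` elements in each block `[4^k, 4^(k+1))` and the following property: if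
   `r_A ≤ K` and all elements of `S` in the block `[4^k, 4^(k+1))` are in `A + A`, then at most
   `c_K 4^k / H(k)` numbers of this block are not in `A + A`.
2. For every `h → ∞` there is a set `S` with at most `h(N) √N` elements up to `N` such that every `A`
   with bounded `r_A` which covers `S` has almost all natural numbers in `A + A`, satisfies
   `|A ∩ [1, N]| ≥ √N` for all large `N`, and has `r_A(n) ≥ 8` for a set of `n` of positive lower
   logarithmic density.

Method: random sets `S` and a union bound over the initial segments of the sets with `r_A ≤ K`, of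
which there are at most `exp (C_K √N)` (container bounds from the library), for all `K` at once.
-/

set_option autoImplicit false

namespace Pool.Agent.Results.MP_491344_nt.DensityOneTestSets

open Filter Pool.Agent.H33.TS

open Classical in
/-- **Test sets which force sumsets of density one.** -/
theorem result :
    -- 1. the local form
    (∃ c : ℕ → ℝ, (∀ K, 0 < c K) ∧ ∀ H : ℕ → ℕ, (∀ k, 1 ≤ H k) → ∃ S : Set ℕ,
      (∀ k, {n : ℕ | n ∈ S ∧ 4 ^ k ≤ n ∧ n < 4 ^ (k + 1)}.ncard ≤ 2 ^ k * H k) ∧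
      ∀ (K : ℕ) (A : Set ℕ), (∀ n, rep A n ≤ K) → ∀ k : ℕ,
        (∀ n ∈ S, 4 ^ k ≤ n → n < 4 ^ (k + 1) → 1 ≤ rep A n) →
          (({n : ℕ | 4 ^ k ≤ n ∧ n < 4 ^ (k + 1) ∧ rep A n = 0}.ncard : ℕ) : ℝ) ≤
            c K * 4 ^ k / H k) ∧
    -- 2. sets with `h(N) √N` elements
    (∀ h : ℕ → ℝ, Tendsto h atTop atTop → ∃ S : Set ℕ,
      (∀ᶠ N : ℕ in atTop, (count S N : ℝ) ≤ h N * √N) ∧
      ∀ A : Set ℕ, (∃ K, ∀ n, rep A n ≤ K) → Covers A S →
        (∀ ε : ℝ, 0 < ε → ∀ᶠ N : ℕ in atTop,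
          (({n : ℕ | 1 ≤ n ∧ n ≤ N ∧ rep A n = 0}.ncard : ℕ) : ℝ) ≤ ε * N) ∧
        (∀ᶠ N : ℕ in atTop, √N ≤ (count A N : ℝ)) ∧
        ∃ δ : ℝ, 0 < δ ∧ ∀ᶠ N : ℕ in atTop,
          δ * Real.log N ≤
            ∑ n ∈ (Finset.Icc 1 N).filter (fun n => 8 ≤ rep A n), 1 / (n : ℝ)) := by
  refine ⟨part3, ?_⟩
  intro h hh
  obtain ⟨S, hS, hA⟩ := part2 h hh
  refine ⟨S, hS, fun A hb hcov => ?_⟩
  have hholes := hA A hb hcov
  have hdens := holes_density hholes
  refine ⟨hdens, thick_of_holes hdens, ?_⟩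
  obtain ⟨K, hK⟩ := hb
  obtain ⟨-, hlib, -⟩ := Pool.Agent.Results.MP_12a1af_nt.EightRepresentations.result
  obtain ⟨δ, hδ, C, hC⟩ := hlib K
  refine ⟨δ / 4, by positivity, ?_⟩
  have hlim : Tendsto (fun N : ℕ => Real.log (N : ℝ)) atTop atTop :=
    Real.tendsto_log_atTop.comp tendsto_natCast_atTop_atTop
  filter_upwards [holes_harmonic hholes (δ / 4) (by positivity), eventually_ge_atTop 1,
    hlim.eventually_ge_atTop (2 * C / δ)] with N hN hN1 hN2
  have h1 : δ * Real.log N - C ≤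
      ∑ n ∈ (Finset.Icc 1 N).filter (fun n => rep A n = 0 ∨ 8 ≤ rep A n), 1 / (n : ℝ) :=
    hC A hK N hN1
  have h2 : ∑ n ∈ (Finset.Icc 1 N).filter (fun n => rep A n = 0 ∨ 8 ≤ rep A n), 1 / (n : ℝ) ≤
      ∑ n ∈ (Finset.Icc 1 N).filter (fun n => rep A n = 0), 1 / (n : ℝ) +
      ∑ n ∈ (Finset.Icc 1 N).filter (fun n => 8 ≤ rep A n), 1 / (n : ℝ) := by
    rw [Finset.filter_or]
    have h3 := Finset.sum_union_inter (s₁ := (Finset.Icc 1 N).filter (fun n => rep A n = 0))
      (s₂ := (Finset.Icc 1 N).filter (fun n => 8 ≤ rep A n)) (f := fun n : ℕ => 1 / (n : ℝ))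
    have h4 : 0 ≤ ∑ n ∈ (Finset.Icc 1 N).filter (fun n => rep A n = 0) ∩
        (Finset.Icc 1 N).filter (fun n => 8 ≤ rep A n), 1 / (n : ℝ) :=
      Finset.sum_nonneg fun n _ => by positivity
    linarith
  have h5 : ∑ n ∈ (Finset.Icc 1 N).filter (fun n => rep A n = 0), 1 / (n : ℝ) ≤
      δ / 4 * Real.log N := by
    convert hN
  rw [div_le_iff₀ hδ] at hN2
  linarith

end Pool.Agent.Results.MP_491344_nt.DensityOneTestSets
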