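import Pool.Agent.H33.TS.Part1
import Pool.Agent.H33.TS.Cov

/-!
# MP_491344_nt: density forced by covering a sparse test set

`rep A n = r_A(n)` is the number of ordered pairs of elements of `A` with sum `n`,
`count A N = |A ∩ [1, N]|`, and `Covers A S` says that all large elements of `S` are sums of two
elements of `A`. `Forces g`: `g` forces unbounded representations, in the sense of the problem.

1. For every `g → ∞` there is a set `S` with only `o(√N)` elements up to `N` such that every set `A`
   with bounded `r_A` which covers `S` has `|A ∩ [1, N]| ≥ √N / (16 g(N))` for all large `N`.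
2. So, if some `g → ∞` forces unbounded representations (a positive answer to Q1), then there is a
   set `S` with `o(√N)` elements up to `N` such that `r_A` is unbounded for EVERY `A` which covers `S`.
3. The size `o(√N)` of the sets `S` is optimal up to a factor `N ^ o(1)`: every `S` with at most
   `N ^ (1/2 - ε)` elements up to `N` (for large `N`) is contained in `A + A` for some `A` with
   bounded `r_A`.

Method of 1: random sets `S` and a union bound over the initial segments of the sets with `r_A ≤ K`,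
of which there are few (container bounds from the library), diagonalised over `K`. Part 3: a greedy
construction with an exponential potential.
-/

set_option autoImplicit false

namespace Pool.Agent.Results.MP_491344_nt.SparseTestSets

open Filter Pool.Agent.H33.TS

/-- `g` forces unbounded representations: `r_A` is unbounded for every `A` such that, for some
`C > 0`, `√N / g(N) ≤ C |A ∩ [1, N]|` for all large `N`. -/
def Forces (g : ℕ → ℝ) : Prop :=
  ∀ A : Set ℕ, (∃ C : ℝ, 0 < C ∧ ∀ᶠ N : ℕ in atTop, √N / g N ≤ C * count A N) →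
    ∀ K, ∃ n, K < rep A n

/-- **Sparse test sets.** -/
theorem result :
    -- 1. sets with `o(√N)` elements
    (∀ g : ℕ → ℝ, Tendsto g atTop atTop → ∃ S : Set ℕ,
      (∀ ε : ℝ, 0 < ε → ∀ᶠ N : ℕ in atTop, (count S N : ℝ) ≤ ε * √N) ∧
      ∀ A : Set ℕ, (∃ K, ∀ n, rep A n ≤ K) → Covers A S →
        ∀ᶠ N : ℕ in atTop, √N / g N ≤ 16 * (count A N : ℝ)) ∧
    -- 2. the question Q1
    ((∃ g : ℕ → ℝ, Tendsto g atTop atTop ∧ Forces g) → ∃ S : Set ℕ,
      (∀ ε : ℝ, 0 < ε → ∀ᶠ N : ℕ in atTop, (count S N : ℝ) ≤ ε * √N) ∧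
      ∀ A : Set ℕ, Covers A S → ∀ K, ∃ n, K < rep A n) ∧
    -- 3. sparser sets can be covered
    (∀ ε : ℝ, 0 < ε → ∀ S : Set ℕ,
      (∀ᶠ N : ℕ in atTop, (count S N : ℝ) ≤ (N : ℝ) ^ (1 / 2 - ε)) →
      ∃ A : Set ℕ, (∃ K, ∀ n, rep A n ≤ K) ∧ ∀ n ∈ S, 1 ≤ rep A n) := by
  refine ⟨part1, ?_, fun ε hε S hS => coverable ε hε S hS⟩
  rintro ⟨g, hg, hf⟩
  obtain ⟨S, hS, hA⟩ := part1 g hg
  refine ⟨S, hS, fun A hcov => ?_⟩
  by_contra hcon
  push Not at hcon
  obtain ⟨K, hK⟩ := hcon
  obtain ⟨n, hn⟩ := hf A ⟨16, by norm_num, hA A ⟨K, hK⟩ hcov⟩ K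
  exact absurd (hK n) (not_le.2 hn)

end Pool.Agent.Results.MP_491344_nt.SparseTestSets
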