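import Pool.Agent.H33.TS.Avoid
import Pool.Agent.H33.TS.Sidon

/-!
# MP_491344_nt: dense sets whose sumset avoids a sparse set

`rep A n = r_A(n)` is the number of ordered pairs of elements of `A` with sum `n`, and
`count A N = |A ∩ [1, N]|`.

1. There are constants `c_K` such that for every nondecreasing `h` with `1 ≤ h(N) ≤ N` there is a set
   `R` with at most `2 h(N) √N` elements up to `N` and the following property: if `r_A ≤ K` and only
   finitely many elements of `R` are sums of two elements of `A`, then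
   `|A ∩ [1, N]|² ≤ c_K N / h(⌊√N⌋)` for all large `N`.
2. For every `h → ∞` there are a set `R` with at most `h(N) √N` elements up to `N` (`N` large) and a
   function `g → ∞` which forces unbounded representations among the sets `A` such that only finitely
   many elements of `R` are in `A + A`: if `√N / g(N) ≤ C |A ∩ [1, N]|` for arbitrarily large `N`,
   then `r_A` is unbounded.
3. The size of `R` in 2 is optimal, already for `g = const`: if `|R ∩ [1, N]| ≤ c √N` for arbitrarily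
   large `N`, then there is a Sidon set `A` (`r_A ≤ 2`) with `√N ≤ C |A ∩ [1, N]|` for arbitrarily
   large `N` and no element of `R` in `A + A`.

Method of 1 and 2: random sets `R` and a union bound over the initial segments of the sets with `r_A ≤ K`, of
which there are at most `exp (C_K √N)` (container bounds from the library), for all `K` at once.
Method of 3: randomly shifted Sidon sets of Erdős and Turán in sparse blocks, and a large independent
set in the graph of the pairs with sum in `R`.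
-/

set_option autoImplicit false

namespace Pool.Agent.Results.MP_491344_nt.SumsetsAvoidingTestSets

open Filter Pool.Agent.H33.TS

/-- **Dense sets whose sumset avoids a sparse set.** -/
theorem result :
    (∃ c : ℕ → ℝ, (∀ K, 0 < c K) ∧ ∀ h : ℕ → ℝ, Monotone h →
      (∀ N, 1 ≤ N → 1 ≤ h N ∧ h N ≤ N) → ∃ R : Set ℕ,
        (∀ N, 1 ≤ N → (count R N : ℝ) ≤ 2 * h N * √N) ∧
        ∀ (K : ℕ) (A : Set ℕ), (∀ n, rep A n ≤ K) → {n : ℕ | n ∈ R ∧ 1 ≤ rep A n}.Finite →
          ∀ᶠ N : ℕ in atTop, (count A N : ℝ) ^ 2 * h (Nat.sqrt N) ≤ c K * N) ∧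
    (∀ h : ℕ → ℝ, Tendsto h atTop atTop → ∃ (R : Set ℕ) (g : ℕ → ℝ),
      (∀ᶠ N : ℕ in atTop, (count R N : ℝ) ≤ h N * √N) ∧ Tendsto g atTop atTop ∧
      ∀ (A : Set ℕ) (C : ℝ), {n : ℕ | n ∈ R ∧ 1 ≤ rep A n}.Finite →
        (∃ᶠ N : ℕ in atTop, √N / g N ≤ C * (count A N : ℝ)) → ∀ K : ℕ, ∃ n, K < rep A n) ∧
    (∀ (R : Set ℕ) (c : ℝ), (∃ᶠ N : ℕ in atTop, (count R N : ℝ) ≤ c * √N) →
      ∃ (A : Set ℕ) (C : ℝ), (∀ n, rep A n ≤ 2) ∧ (∀ n ∈ R, rep A n = 0) ∧
        ∃ᶠ N : ℕ in atTop, √N ≤ C * (count A N : ℝ)) := by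
  refine ⟨part5, fun h hh => ?_, fun R c hR => ?_⟩
  swap
  · obtain ⟨A, h1, h2, C, h3⟩ := sidon_avoiding R c hR
    exact ⟨A, C, h1, h2, h3⟩
  obtain ⟨c, hc0, hc⟩ := part5
  have hh2 : Tendsto (fun N : ℕ => h N / 2) atTop atTop := hh.atTop_div_const (by norm_num)
  obtain ⟨G, hG, hGk, hGm, hGh⟩ := exists_G (fun N => h N / 2) hh2
  set h₁ : ℕ → ℝ := fun N => ((max 1 (G (Nat.log 4 N)) : ℕ) : ℝ) with hh₁
  have hmono : Monotone h₁ := by
    intro a b hab
    have h1 : G (Nat.log 4 a) ≤ G (Nat.log 4 b) := hGm (Nat.log_mono_right hab)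
    have h2 : max 1 (G (Nat.log 4 a)) ≤ max 1 (G (Nat.log 4 b)) := max_le_max le_rfl h1
    exact Nat.cast_le.2 h2
  have hb : ∀ N, 1 ≤ N → 1 ≤ h₁ N ∧ h₁ N ≤ N := by
    intro N hN
    constructor
    · exact Nat.one_le_cast.2 (le_max_left 1 (G (Nat.log 4 N)))
    · have h1 : max 1 (G (Nat.log 4 N)) ≤ N :=
        max_le hN ((hGk _).trans (Nat.log_le_self 4 N))
      exact Nat.cast_le.2 h1
  have hlog : Tendsto (fun N : ℕ => Nat.log 4 N) atTop atTop := by
    rw [tendsto_atTop]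
    intro m
    filter_upwards [eventually_ge_atTop (4 ^ m)] with N hN
    exact Nat.le_log_of_pow_le (by norm_num) hN
  have hh₁t : Tendsto h₁ atTop atTop := by
    have h1 : Tendsto (fun N : ℕ => ((G (Nat.log 4 N) : ℕ) : ℝ)) atTop atTop :=
      tendsto_natCast_atTop_atTop.comp (hG.comp hlog)
    refine tendsto_atTop_mono (fun N => ?_) h1
    exact Nat.cast_le.2 (le_max_right 1 (G (Nat.log 4 N)))
  have hsqrt : Tendsto (fun N : ℕ => Nat.sqrt N) atTop atTop := by
    rw [tendsto_atTop]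
    intro m
    filter_upwards [eventually_ge_atTop (m ^ 2)] with N hN
    exact Nat.le_sqrt'.2 hN
  obtain ⟨R, hR, hA⟩ := hc h₁ hmono hb
  refine ⟨R, fun N => √(√(h₁ (Nat.sqrt N))), ?_, ?_, ?_⟩
  · obtain ⟨k₀, hk₀⟩ := eventually_atTop.1 hGh
    filter_upwards [eventually_ge_atTop (4 ^ k₀), eventually_ge_atTop 1,
      hh2.eventually_ge_atTop 1] with N hN hN1 hN2
    have h1 : k₀ ≤ Nat.log 4 N := Nat.le_log_of_pow_le (by norm_num) hN
    have h2 : (G (Nat.log 4 N) : ℝ) ≤ h N / 2 :=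
      hk₀ _ h1 N (Nat.pow_log_le_self 4 (by omega))
    have h3 : h₁ N ≤ h N / 2 := by
      simp only [hh₁, Nat.cast_max, Nat.cast_one]
      exact max_le hN2 h2
    refine (hR N hN1).trans (mul_le_mul_of_nonneg_right ?_ (Real.sqrt_nonneg _))
    linarith
  · exact Real.tendsto_sqrt_atTop.comp (Real.tendsto_sqrt_atTop.comp (hh₁t.comp hsqrt))
  · intro A C hfin hfreq K
    by_contra hcon
    push Not at hcon
    have h1 := hA K A hcon hfin
    have h2 : ∀ᶠ N : ℕ in atTop, C ^ 2 * c K < √(h₁ (Nat.sqrt N)) :=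
      (Real.tendsto_sqrt_atTop.comp (hh₁t.comp hsqrt)).eventually_gt_atTop _
    obtain ⟨N, hN, hN1, hN2, hN3⟩ := (hfreq.and_eventually (h1.and (h2.and
      (eventually_ge_atTop 1)))).exists
    have hNpos : (0 : ℝ) < N := by exact_mod_cast hN3
    set x := h₁ (Nat.sqrt N) with hx
    have hx1 : 1 ≤ x := (hb _ (by rw [Nat.succ_le_iff]; exact Nat.sqrt_pos.2 hN3)).1
    have hs1 : (√x) ^ 2 = x := Real.sq_sqrt (by linarith)
    have hs0 : 1 ≤ √x := by
      rw [Real.one_le_sqrt]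
      exact hx1
    have hs2 : (√(√x)) ^ 2 = √x := Real.sq_sqrt (by linarith)
    have hs3 : 0 < √(√x) := Real.sqrt_pos.2 (by linarith)
    rw [div_le_iff₀ hs3] at hN
    have h3 : (√(N : ℝ)) ^ 2 = N := Real.sq_sqrt hNpos.le
    have h4 : (√(N : ℝ)) ^ 2 ≤ (C * (count A N : ℝ) * √(√x)) ^ 2 :=
      pow_le_pow_left₀ (Real.sqrt_nonneg _) hN 2
    have h5 : (C * (count A N : ℝ) * √(√x)) ^ 2 = C ^ 2 * (count A N : ℝ) ^ 2 * √x := by
      rw [mul_pow, mul_pow, hs2]
    rw [h3, h5] at h4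
    have h6 : (N : ℝ) * √x ≤ C ^ 2 * ((count A N : ℝ) ^ 2 * x) := by
      calc (N : ℝ) * √x ≤ C ^ 2 * (count A N : ℝ) ^ 2 * √x * √x :=
            mul_le_mul_of_nonneg_right h4 (by linarith)
        _ = C ^ 2 * ((count A N : ℝ) ^ 2 * (√x) ^ 2) := by ring
        _ = C ^ 2 * ((count A N : ℝ) ^ 2 * x) := by rw [hs1]
    have h7 : C ^ 2 * ((count A N : ℝ) ^ 2 * x) ≤ C ^ 2 * (c K * N) :=
      mul_le_mul_of_nonneg_left hN1 (by positivity)
    have h8 : (N : ℝ) * √x ≤ N * (C ^ 2 * c K) := by linarith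
    have h9 := le_of_mul_le_mul_left h8 hNpos
    exact absurd hN2 (not_lt.2 h9)

end Pool.Agent.Results.MP_491344_nt.SumsetsAvoidingTestSets
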